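import Pool.Agent.P.MP_e3bb54_nt.Basic

namespace Pool.Agent.Results.MP_e3bb54_nt.BasisGap

/-- There are `ε > 0` and `n₀` such that for every `n > n₀` there are a set `B` of `n` positive
reals and a set `A` of positive integers inside `BB` such that no set `C` of fewer than
`n ^ (1 + ε)` positive integers has `A ⊆ CC`. -/
theorem result :
    ∃ ε : ℝ, 0 < ε ∧ ∃ n₀ : ℕ, ∀ n : ℕ, n₀ < n →
      ∃ B : Finset ℝ, (∀ b ∈ B, 0 < b) ∧ B.card = n ∧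
        ∃ A : Finset ℕ, (∀ a ∈ A, 0 < a ∧ ∃ x ∈ B, ∃ y ∈ B, (a : ℝ) = x * y) ∧
          ∀ C : Finset ℕ, (∀ c ∈ C, 0 < c) → (C.card : ℝ) < (n : ℝ) ^ (1 + ε) →
            ¬ ∀ a ∈ A, ∃ c ∈ C, ∃ d ∈ C, a = c * d := by
  refine ⟨1 / 4, by norm_num, 3 * (24 ^ 5) ^ 3, fun n hn => ?_⟩
  obtain ⟨k, hk, hkn⟩ := Pool.Agent.P.MP_e3bb54_nt.exists_k n hn
  obtain ⟨B, hB, hBc, A, hA, hC⟩ := Pool.Agent.P.MP_e3bb54_nt.exists_sets
    (Pool.Agent.P.MP_e3bb54_nt.grid k) (Pool.Agent.P.MP_e3bb54_nt.grid_free k) n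
    ((Pool.Agent.P.MP_e3bb54_nt.grid_vertices k).trans hk)
  refine ⟨B, hB, hBc, A, hA, fun C _ hlt hcov => ?_⟩
  have h1 := hC C hcov
  rw [Pool.Agent.P.MP_e3bb54_nt.card_grid] at h1
  have h2 : ((k ^ 4 : ℕ) : ℝ) ≤ (C.card : ℝ) := by exact_mod_cast h1
  linarith

end Pool.Agent.Results.MP_e3bb54_nt.BasisGap
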